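import Pool.Agent.H57.UGB.Api
import Pool.Agent.H37.UG.Interp

/-!
# B-INT: interpolation by the powers of the coordinate `l` with degrees
-/

set_option autoImplicit false

open MvPolynomial

namespace Pool.Agent.H57.UGB

open Pool.Agent.H47.KB Pool.Agent.H47.UG Pool.Agent.H37.UG

section int84

variable {R : Type*} [CommRing R] {B : ℕ → AddSubgroup R}

/-- Interpolation by the powers of `v ζ(v)`, `ζ(0) = 1`; the weights are given by `g`. -/
theorem h84_norm (h : IsFilt B) {g : ℕ → AddSubgroup R}
    (hg : ∀ (i j : ℕ) (a b : R), a ∈ g i → b ∈ B (3 * j) → a * b ∈ g (i + j))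
    {ζ a : PowerSeries R} (hζ0 : PowerSeries.coeff 0 ζ = 1) (hζ : IsFilt.Good B 3 0 ζ)
    (ha : ∀ s, PowerSeries.coeff s a ∈ g s) (j : ℕ) : ∃ c : ℕ → R, (∀ r, c r ∈ g r) ∧
      (∀ s < j, PowerSeries.coeff s (a - ∑ r ∈ Finset.range j, PowerSeries.C (c r) * (PowerSeries.X * ζ) ^ r) = 0) ∧
      ∀ s, PowerSeries.coeff s (a - ∑ r ∈ Finset.range j, PowerSeries.C (c r) * (PowerSeries.X * ζ) ^ r) ∈ g s := by
  induction j with
  | zero =>
    refine ⟨fun _ => 0, fun r => (g _).zero_mem, fun s hs => absurd hs (Nat.not_lt_zero s), ?_⟩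
    simpa using ha
  | succ j ih =>
    obtain ⟨c, hc, h1, h2⟩ := ih
    set ρ := a - ∑ r ∈ Finset.range j, PowerSeries.C (c r) * (PowerSeries.X * ζ) ^ r with hρ
    refine ⟨Function.update c j (PowerSeries.coeff j ρ), ?_, ?_⟩
    · intro r
      by_cases hr : r = j
      · subst hr
        rw [Function.update_self]
        exact h2 r
      · rw [Function.update_of_ne hr]
        exact hc r
    · have e1 : a - ∑ r ∈ Finset.range (j + 1),
            PowerSeries.C (Function.update c j (PowerSeries.coeff j ρ) r) * (PowerSeries.X * ζ) ^ r =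
          ρ - PowerSeries.C (PowerSeries.coeff j ρ) * (PowerSeries.X ^ j * ζ ^ j) := by
        rw [Finset.sum_range_succ, Function.update_self, hρ, mul_pow]
        have : ∑ r ∈ Finset.range j,
              PowerSeries.C (Function.update c j (PowerSeries.coeff j ρ) r) * (PowerSeries.X * ζ) ^ r =
            ∑ r ∈ Finset.range j, PowerSeries.C (c r) * (PowerSeries.X * ζ) ^ r := by
          refine Finset.sum_congr rfl fun r hr => ?_
          rw [Function.update_of_ne (Finset.mem_range.1 hr).ne]
        rw [this]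
        ring
      rw [e1]
      have hz0 : PowerSeries.coeff 0 (ζ ^ j) = 1 := by
        rw [PowerSeries.coeff_zero_eq_constantCoeff_apply, map_pow,
          ← PowerSeries.coeff_zero_eq_constantCoeff_apply, hζ0, one_pow]
      have hzj : IsFilt.Good B 3 0 (ζ ^ j) := by simpa using h.good_pow hζ j
      constructor
      · intro s hs
        rw [map_sub, PowerSeries.coeff_C_mul, PowerSeries.coeff_X_pow_mul']
        rcases Nat.lt_succ_iff_lt_or_eq.1 hs with hs' | hs'
        · rw [h1 s hs', if_neg (not_le.2 hs'), mul_zero, sub_zero]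
        · subst hs'
          rw [if_pos le_rfl, Nat.sub_self, hz0, mul_one, sub_self]
      · intro s
        rw [map_sub]
        refine (g s).sub_mem (h2 s) ?_
        rw [PowerSeries.coeff_C_mul, PowerSeries.coeff_X_pow_mul']
        split_ifs with hs
        · have := hg j (s - j) _ _ (h2 j) (by simpa using hzj (s - j))
          rwa [Nat.add_sub_cancel' hs] at this
        · rw [mul_zero]
          exact (g s).zero_mem

/-- `y^(2k) t^s` is modulo `t^(k+1)` a combination of `1, z, .., z^k`, `z = y t + ..`. -/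
theorem h84_interp (h : IsFilt B) [IsDomain R] {z : PowerSeries R} (hz0 : PowerSeries.coeff 0 z = 0)
    (hz : ∀ s, PowerSeries.coeff s z ∈ B (s + 1)) (hy : PowerSeries.coeff 1 z ≠ 0) (k s0 : ℕ) (hs0 : s0 ≤ k) :
    ∃ c : ℕ → R, (∀ r ≤ k, c r ∈ B (4 * k - s0 - r)) ∧
      ∀ j ≤ k, PowerSeries.coeff j (∑ r ∈ Finset.range (k + 1), PowerSeries.C (c r) * z ^ r) =
        if j = s0 then PowerSeries.coeff 1 z ^ (2 * k) else 0 := by
  classical
  set y := PowerSeries.coeff 1 z with hydef
  have hyB : y ∈ B 2 := by simpa using hz 1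
  let ζ : PowerSeries R := PowerSeries.mk fun s => if s = 0 then 1 else y ^ (s - 1) * PowerSeries.coeff (s + 1) z
  have hζ0 : PowerSeries.coeff 0 ζ = 1 := by simp [ζ]
  have hζ : IsFilt.Good B 3 0 ζ := by
    intro s
    change PowerSeries.coeff s (PowerSeries.mk _) ∈ _
    rw [PowerSeries.coeff_mk]
    split_ifs with hs
    · exact h.mono (Nat.zero_le _) h.one
    · have := h.mul (h.pow hyB (s - 1)) (hz (s + 1))
      have e : (s - 1) * 2 + (s + 1 + 1) = 3 * s + 0 := by omega
      rwa [e] at this
  have hre : PowerSeries.rescale y z = PowerSeries.C (y ^ 2) * (PowerSeries.X * ζ) := by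
    ext s
    rw [PowerSeries.coeff_rescale, PowerSeries.coeff_C_mul]
    cases s with
    | zero => rw [hz0, PowerSeries.coeff_zero_X_mul, mul_zero, mul_zero]
    | succ s =>
      rw [PowerSeries.coeff_succ_X_mul]
      change _ = y ^ 2 * PowerSeries.coeff s (PowerSeries.mk _)
      rw [PowerSeries.coeff_mk]
      split_ifs with hs
      · subst hs
        rw [zero_add, pow_one, ← hydef]
        ring
      · obtain ⟨s', rfl⟩ := Nat.exists_eq_succ_of_ne_zero hs
        rw [Nat.succ_eq_add_one, Nat.add_sub_cancel]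
        ring
  let g : ℕ → AddSubgroup R := fun r => if r < s0 then ⊥ else B (3 * (r - s0))
  have hg : ∀ (i j : ℕ) (a b : R), a ∈ g i → b ∈ B (3 * j) → a * b ∈ g (i + j) := by
    intro i j a b ha hb
    by_cases hi : i < s0
    · have ha0 : a = 0 := by
        have : a ∈ (⊥ : AddSubgroup R) := by
          have h' := ha
          simp only [g, if_pos hi] at h'
          exact h'
        exact AddSubgroup.mem_bot.1 this
      rw [ha0, zero_mul]
      exact (g _).zero_mem
    · have ha' : a ∈ B (3 * (i - s0)) := by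
        have h' := ha
        simp only [g, if_neg hi] at h'
        exact h'
      have := h.mul ha' hb
      have e : 3 * (i - s0) + 3 * j = 3 * (i + j - s0) := by omega
      rw [e] at this
      simp only [g, if_neg (show ¬ i + j < s0 by omega)]
      exact this
  have ha : ∀ s, PowerSeries.coeff s ((PowerSeries.X : PowerSeries R) ^ s0) ∈ g s := by
    intro s
    rw [PowerSeries.coeff_X_pow]
    split_ifs with hs
    · subst hs
      simp only [g, if_neg (lt_irrefl s)]
      exact h.mono (Nat.zero_le _) h.one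
    · exact (g _).zero_mem
  obtain ⟨c, hc, h1, -⟩ := h84_norm h hg hζ0 hζ ha (k + 1)
  refine ⟨fun r => c r * y ^ (2 * k + s0 - 2 * r), fun r hr => ?_, fun s hs => ?_⟩
  · by_cases hr0 : r < s0
    · have hc0 : c r = 0 := by
        have h' := hc r
        simp only [g, if_pos hr0] at h'
        exact AddSubgroup.mem_bot.1 h'
      change c r * y ^ (2 * k + s0 - 2 * r) ∈ _
      rw [hc0, zero_mul]
      exact (B _).zero_mem
    · have hc' : c r ∈ B (3 * (r - s0)) := by
        have h' := hc r
        simp only [g, if_neg hr0] at h'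
        exact h'
      have := h.mul hc' (h.pow hyB (2 * k + s0 - 2 * r))
      have e : 3 * (r - s0) + (2 * k + s0 - 2 * r) * 2 = 4 * k - s0 - r := by omega
      rwa [e] at this
  · have hC : ∀ a : R, PowerSeries.rescale y (PowerSeries.C a) = PowerSeries.C a := by
      intro a
      ext m
      rw [PowerSeries.coeff_rescale, PowerSeries.coeff_C]
      split_ifs with hm
      · subst hm; simp
      · simp
    have hX : PowerSeries.rescale y ((PowerSeries.X : PowerSeries R) ^ s0) =
        PowerSeries.C (y ^ s0) * PowerSeries.X ^ s0 := by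
      ext m
      rw [PowerSeries.coeff_rescale, PowerSeries.coeff_C_mul, PowerSeries.coeff_X_pow]
      split_ifs with hm
      · subst hm; rfl
      · simp
    have key : PowerSeries.rescale y (PowerSeries.C (y ^ (2 * k)) * PowerSeries.X ^ s0 -
          ∑ r ∈ Finset.range (k + 1), PowerSeries.C (c r * y ^ (2 * k + s0 - 2 * r)) * z ^ r) =
        PowerSeries.C (y ^ (2 * k + s0)) * (PowerSeries.X ^ s0 -
          ∑ r ∈ Finset.range (k + 1), PowerSeries.C (c r) * (PowerSeries.X * ζ) ^ r) := by
      rw [map_sub, map_mul, map_sum, mul_sub, Finset.mul_sum, hC, hX, pow_add, map_mul]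
      congr 1
      · ring
      refine Finset.sum_congr rfl fun r hr => ?_
      have hr' : r ≤ k := Nat.lt_succ_iff.1 (Finset.mem_range.1 hr)
      have e2 : y ^ (2 * k) * y ^ s0 = y ^ (2 * k + s0 - 2 * r) * (y ^ 2) ^ r := by
        rw [← pow_mul, ← pow_add, ← pow_add]
        congr 1
        omega
      rw [map_mul, map_pow, hre, hC, ← map_mul PowerSeries.C (y ^ (2 * k)), e2]
      generalize y ^ (2 * k + s0 - 2 * r) = q1
      generalize y ^ 2 = q2
      rw [mul_pow, map_mul, map_mul, map_pow]
      ring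
    have h3 := congrArg (PowerSeries.coeff s) key
    rw [PowerSeries.coeff_rescale, PowerSeries.coeff_C_mul, h1 s (Nat.lt_succ_of_le hs), mul_zero] at h3
    have h4 : PowerSeries.coeff s (PowerSeries.C (y ^ (2 * k)) * PowerSeries.X ^ s0 -
          ∑ r ∈ Finset.range (k + 1), PowerSeries.C (c r * y ^ (2 * k + s0 - 2 * r)) * z ^ r) = 0 := by
      rcases mul_eq_zero.1 h3 with h4 | h4
      · exact absurd h4 (pow_ne_zero _ hy)
      · exact h4
    rw [map_sub, sub_eq_zero, PowerSeries.coeff_C_mul, PowerSeries.coeff_X_pow] at h4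
    rw [← h4]
    split_ifs <;> simp

/-- Change of the base point. -/
theorem h84_expand (k : ℕ) (c : ℕ → R) (x0 : R) (u : PowerSeries R) :
    ∑ m ∈ Finset.range (k + 1), PowerSeries.C (∑ r ∈ Finset.range (k + 1),
      c r * ((-x0) ^ (r - m) * (r.choose m : R))) * u ^ m =
    ∑ r ∈ Finset.range (k + 1), PowerSeries.C (c r) * (u - PowerSeries.C x0) ^ r := by
  calc ∑ m ∈ Finset.range (k + 1), PowerSeries.C (∑ r ∈ Finset.range (k + 1),
            c r * ((-x0) ^ (r - m) * (r.choose m : R))) * u ^ m
        = ∑ m ∈ Finset.range (k + 1), ∑ r ∈ Finset.range (k + 1),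
            PowerSeries.C (c r) * (u ^ m * PowerSeries.C (-x0) ^ (r - m) * (r.choose m : PowerSeries R)) := by
          refine Finset.sum_congr rfl fun m _ => ?_
          rw [map_sum, Finset.sum_mul]
          refine Finset.sum_congr rfl fun r _ => ?_
          rw [map_mul, map_mul, map_pow, map_natCast]
          ring
      _ = ∑ r ∈ Finset.range (k + 1), ∑ m ∈ Finset.range (k + 1),
            PowerSeries.C (c r) * (u ^ m * PowerSeries.C (-x0) ^ (r - m) * (r.choose m : PowerSeries R)) :=
          Finset.sum_comm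
      _ = ∑ r ∈ Finset.range (k + 1), PowerSeries.C (c r) * (u - PowerSeries.C x0) ^ r := by
          refine Finset.sum_congr rfl fun r hr => ?_
          have hr' : r ≤ k := Nat.lt_succ_iff.1 (Finset.mem_range.1 hr)
          rw [sub_eq_add_neg, ← map_neg, add_pow, ← Finset.mul_sum]
          congr 1
          symm
          refine Finset.sum_subset (Finset.range_mono (by omega)) fun m _ hm => ?_
          rw [Nat.choose_eq_zero_of_lt (by simpa using hm), Nat.cast_zero, mul_zero]

end int84

/-- The filtration of `JR` by the weight. -/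
def h84_F (n k : ℕ) (e : ℕ) : AddSubgroup (JR n k) where
  carrier := {P | Dg e P}
  add_mem' := fun ha hb => ha.add hb
  zero_mem' := dg_zero e
  neg_mem' := fun ha => ha.neg

theorem h84_filt (n k : ℕ) : IsFilt (h84_F n k) where
  mono := fun _ _ he _ ha => Dg.mono ha he
  one := by
    change Dg 0 (1 : JR n k)
    rw [← C_1]
    exact dg_C 0 1
  mul := fun ha hb => Dg.mul ha hb

theorem h84_interp_uy (n k : ℕ) (hk : 1 ≤ k) (l : Fin (n + 2)) (s : ℕ) (hs : s ≤ k) :
    ∃ E : ℕ → JR n k, (∀ r ≤ k, Dg (4 * k - s - r) (E r)) ∧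
      ∀ j ≤ k, PowerSeries.coeff j (∑ r ∈ Finset.range (k + 1), PowerSeries.C (E r) * uy n k l ^ r) =
        if j = s then PowerSeries.coeff 1 (uy n k l) ^ (2 * k) else 0 := by
  classical
  set x0 : JR n k := PowerSeries.coeff 0 (uy n k l) with hx0
  set z : PowerSeries (JR n k) := uy n k l - PowerSeries.C x0 with hz
  have hz1 : PowerSeries.coeff 1 z = PowerSeries.coeff 1 (uy n k l) := by
    rw [hz, map_sub, PowerSeries.coeff_C, if_neg one_ne_zero, sub_zero]
  have hz0 : PowerSeries.coeff 0 z = 0 := by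
    rw [hz, map_sub, PowerSeries.coeff_C, if_pos rfl, sub_self]
  have hzB : ∀ s, PowerSeries.coeff s z ∈ h84_F n k (s + 1) := by
    intro s
    rw [hz, map_sub, PowerSeries.coeff_C]
    split_ifs with h0
    · subst h0
      rw [← hx0, sub_self]
      exact (h84_F n k _).zero_mem
    · rw [sub_zero]
      exact dg_coeff_uy l s
  have hy : PowerSeries.coeff 1 z ≠ 0 := by
    rw [hz1, coeff_uy_of_le l hk]
    exact X_ne_zero _
  obtain ⟨c, hc, hc2⟩ := h84_interp (h84_filt n k) hz0 hzB hy k s hs
  refine ⟨fun m => ∑ r ∈ Finset.range (k + 1), c r * ((-x0) ^ (r - m) * (r.choose m : JR n k)), fun m hm => ?_,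
    fun j hj => ?_⟩
  · change (∑ r ∈ Finset.range (k + 1), c r * ((-x0) ^ (r - m) * (r.choose m : JR n k))) ∈ h84_F n k _
    refine AddSubgroup.sum_mem _ fun r hr => ?_
    have hr' : r ≤ k := Nat.lt_succ_iff.1 (Finset.mem_range.1 hr)
    by_cases hmr : m ≤ r
    · have hx : (-x0) ∈ h84_F n k 1 := by
        refine (h84_F n k 1).neg_mem ?_
        have := dg_coeff_uy (n := n) (k := k) l 0
        exact this
      have h1 := (h84_filt n k).mul ((h84_filt n k).pow hx (r - m)) ((h84_filt n k).nat (r.choose m))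
      have h2 := (h84_filt n k).mul (hc r hr') h1
      have e : 4 * k - s - r + ((r - m) * 1 + 0) = 4 * k - s - m := by omega
      rwa [e] at h2
    · rw [Nat.choose_eq_zero_of_lt (by omega), Nat.cast_zero, mul_zero, mul_zero]
      exact (h84_F n k _).zero_mem
  · rw [← hz1, ← hc2 j hj]
    exact congrArg (PowerSeries.coeff j) (h84_expand k c x0 (uy n k l))

/-- INT -/
theorem interp (n k : ℕ) (hk : 1 ≤ k) (l : Fin (n + 2)) :
    ∃ E : ℕ → ℕ → JR n k, (∀ s ≤ k, ∀ r ≤ k, Dg (4 * k - s - r) (E s r)) ∧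
      ∀ (R : Type) [CommRing R] [Algebra ℂ R] (a : (Fin (n + 2) →₀ ℕ) → R) (y : Fin (n + 2) → PowerSeries R),
        ∀ s ≤ k, ∀ j ≤ k,
          PowerSeries.coeff j (∑ r ∈ Finset.range (k + 1), PowerSeries.C (pt a y (E s r)) * y l ^ r) =
            if j = s then PowerSeries.coeff 1 (y l) ^ (2 * k) else 0 := by
  classical
  have h : ∀ s, ∃ E : ℕ → JR n k, s ≤ k → (∀ r ≤ k, Dg (4 * k - s - r) (E r)) ∧
      ∀ j ≤ k, PowerSeries.coeff j (∑ r ∈ Finset.range (k + 1), PowerSeries.C (E r) * uy n k l ^ r) =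
        if j = s then PowerSeries.coeff 1 (uy n k l) ^ (2 * k) else 0 := by
    intro s
    by_cases hs : s ≤ k
    · obtain ⟨E, hE⟩ := h84_interp_uy n k hk l s hs
      exact ⟨E, fun _ => hE⟩
    · exact ⟨fun _ => 0, fun h => absurd h hs⟩
  choose E hE using h
  refine ⟨E, fun s hs r hr => (hE s hs).1 r hr, fun R _ _ a y s hs j hj => ?_⟩
  have h1 := congrArg (pt a y : JR n k →ₐ[ℂ] R) ((hE s hs).2 j hj)
  have h2 : (pt a y : JR n k →ₐ[ℂ] R)
      (PowerSeries.coeff j (∑ r ∈ Finset.range (k + 1), PowerSeries.C (E s r) * uy n k l ^ r)) =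
      PowerSeries.coeff j (∑ r ∈ Finset.range (k + 1), PowerSeries.C (pt a y (E s r)) * y l ^ r) := by
    have h3 : (pt a y : JR n k →ₐ[ℂ] R)
        (PowerSeries.coeff j (∑ r ∈ Finset.range (k + 1), PowerSeries.C (E s r) * uy n k l ^ r)) =
        PowerSeries.coeff j (PowerSeries.map ((pt a y : JR n k →ₐ[ℂ] R) : JR n k →+* R)
          (∑ r ∈ Finset.range (k + 1), PowerSeries.C (E s r) * uy n k l ^ r)) := by
      rw [PowerSeries.coeff_map]; rfl
    rw [h3, map_sum, map_sum, map_sum]
    refine Finset.sum_congr rfl fun r _ => ?_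
    rw [map_mul, map_pow, PowerSeries.map_C, PowerSeries.coeff_C_mul, PowerSeries.coeff_C_mul]
    congr 1
    exact Eqk.pow (fun s hs => coeff_map_uy a y l hs) r j hj
  rw [h2] at h1
  rw [h1]
  split_ifs with hjs
  · rw [map_pow]
    congr 1
    have := coeff_map_uy a y l hk
    rw [PowerSeries.coeff_map] at this
    exact this
  · exact map_zero _

end Pool.Agent.H57.UGB
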